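import Pool.Agent.DF49E3.P10

set_option autoImplicit false

/-!
# The Legendre polynomial `P_{(p-1)/2}` at `7√-15 + 16√-3` modulo `p²`

For every prime `p ≡ 1, 4 (mod 15)`, all integers `x, y` with `p = x² + 15 y²` and all `p`-adic
integers `s, t` with `s² = -15`, `t² = -3`, the value of
`P_n(X) = ∑ₖ C(n,k) C(n+k,k) ((X-1)/2)^k`, `n = (p-1)/2`, at `X = 7 s + 16 t` is congruent to
`(-s / p) (x / 15) (2 x - p / (2 x))` modulo `p²`.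
-/

namespace Pool.Agent.Results.MP_df49e3_nt.LegendreFifteen

theorem result (p : ℕ) [Fact p.Prime] (hp : p % 15 = 1 ∨ p % 15 = 4) (x y : ℤ)
    (hxy : (p : ℤ) = x ^ 2 + 15 * y ^ 2) (s t : ℤ_[p]) (hs : s ^ 2 = -15) (ht : t ^ 2 = -3) :
    ∃ z : ℤ_[p],
      (∑ k ∈ Finset.range ((p - 1) / 2 + 1),
          (((p - 1) / 2).choose k : ℚ_[p]) * (((p - 1) / 2 + k).choose k : ℚ_[p]) *
            ((7 * (s : ℚ_[p]) + 16 * (t : ℚ_[p]) - 1) / 2) ^ k) -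
        ((quadraticChar (ZMod p) (PadicInt.toZMod (-s)) : ℤ) : ℚ_[p]) *
          ((jacobiSym x 15 : ℤ) : ℚ_[p]) * (2 * (x : ℚ_[p]) - (p : ℚ_[p]) / (2 * (x : ℚ_[p]))) =
      (p : ℚ_[p]) ^ 2 * (z : ℚ_[p]) := by
  obtain ⟨z, hz⟩ := Pool.Agent.DF49E3.P10.legSum_main hp x y hxy s t hs ht
  refine ⟨z, ?_⟩
  rw [← hz]
  unfold Pool.Agent.DF49E3.legSum
  push_cast
  rfl

end Pool.Agent.Results.MP_df49e3_nt.LegendreFifteen
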